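import Mathlib
import Pool.Agent.V11109.Cake.Main

/-!
# Dyadic cells of the cake and the top plateau of a density
-/

set_option autoImplicit false

open MeasureTheory Set

namespace Pool.Agent.D0H58.CK

open Pool.Agent.V11109.Cake

/-- The dyadic interval `[k / 2 ^ N, (k + 1) / 2 ^ N)` of the cake. -/
def cell (N k : ℕ) : Set unitInterval :=
  {x | (k : ℝ) ≤ (x : ℝ) * 2 ^ N ∧ (x : ℝ) * 2 ^ N < k + 1}

lemma cell_ordConnected (N k : ℕ) : (cell N k).OrdConnected := by
  constructor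
  intro x hx y hy z hz
  have h1 : (x : ℝ) ≤ z := hz.1
  have h2 : (z : ℝ) ≤ y := hz.2
  have hp : (0 : ℝ) ≤ 2 ^ N := by positivity
  exact ⟨hx.1.trans (mul_le_mul_of_nonneg_right h1 hp),
    (mul_le_mul_of_nonneg_right h2 hp).trans_lt hy.2⟩

lemma cell_measurable (N k : ℕ) : MeasurableSet (cell N k) :=
  (cell_ordConnected N k).measurableSet

lemma cell_disjoint {N k k' : ℕ} (h : k ≠ k') : Disjoint (cell N k) (cell N k') := by
  rw [Set.disjoint_left]
  rintro x ⟨h1, h2⟩ ⟨h3, h4⟩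
  apply h
  have a1 : (k : ℝ) < k' + 1 := h1.trans_lt h4
  have a2 : (k' : ℝ) < k + 1 := h3.trans_lt h2
  have b1 : k < k' + 1 := by exact_mod_cast a1
  have b2 : k' < k + 1 := by exact_mod_cast a2
  omega

lemma cell_sub (N j k i : ℕ) (hi : i < 2 ^ j) :
    cell (N + j) (k * 2 ^ j + i) ⊆ cell N k := by
  rintro x ⟨h1, h2⟩
  have hp : (0 : ℝ) < 2 ^ j := by positivity
  push_cast at h1 h2
  rw [pow_add, ← mul_assoc] at h1 h2
  have hi' : (i : ℝ) + 1 ≤ 2 ^ j := by exact_mod_cast hi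
  have hi0 : (0 : ℝ) ≤ i := Nat.cast_nonneg i
  constructor
  · refine le_of_mul_le_mul_right ?_ hp
    linarith
  · refine lt_of_mul_lt_mul_right ?_ hp.le
    have : ((k : ℝ) + 1) * 2 ^ j = k * 2 ^ j + 2 ^ j := by ring
    rw [this]
    linarith

lemma cell_sub' {n N k i : ℕ} (h : N ≤ n) (hi : i < 2 ^ (n - N)) :
    cell n (k * 2 ^ (n - N) + i) ⊆ cell N k := by
  have := cell_sub N (n - N) k i hi
  rwa [Nat.add_sub_cancel' h] at this

lemma idx_lt {n N k i : ℕ} (h : N ≤ n) (hk : k < 2 ^ N) (hi : i < 2 ^ (n - N)) :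
    k * 2 ^ (n - N) + i < 2 ^ n := by
  have h1 : (k + 1) * 2 ^ (n - N) ≤ 2 ^ N * 2 ^ (n - N) := Nat.mul_le_mul_right _ hk
  have h2 : 2 ^ N * 2 ^ (n - N) = 2 ^ n := by rw [← pow_add, Nat.add_sub_cancel' h]
  have h3 : (k + 1) * 2 ^ (n - N) = k * 2 ^ (n - N) + 2 ^ (n - N) := by ring
  omega

lemma image_cell {N k : ℕ} (hk : k < 2 ^ N) :
    (Subtype.val '' cell N k : Set ℝ) = Ico ((k : ℝ) / 2 ^ N) ((k + 1) / 2 ^ N) := by
  have hp : (0 : ℝ) < 2 ^ N := by positivity
  ext x
  constructor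
  · rintro ⟨y, ⟨h1, h2⟩, rfl⟩
    exact ⟨(div_le_iff₀ hp).2 h1, (lt_div_iff₀ hp).2 h2⟩
  · rintro ⟨h1, h2⟩
    rw [div_le_iff₀ hp] at h1
    rw [lt_div_iff₀ hp] at h2
    have hk' : (k : ℝ) + 1 ≤ 2 ^ N := by exact_mod_cast hk
    have hx0 : 0 ≤ x := by
      by_contra hx
      push Not at hx
      have : x * 2 ^ N < 0 := mul_neg_of_neg_of_pos hx hp
      have hk0 : (0 : ℝ) ≤ k := Nat.cast_nonneg k
      linarith
    have hx1 : x ≤ 1 := by
      by_contra hx
      push Not at hx
      have : 1 * (2 : ℝ) ^ N < x * 2 ^ N := mul_lt_mul_of_pos_right hx hp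
      linarith
    exact ⟨⟨x, hx0, hx1⟩, ⟨h1, h2⟩, rfl⟩

lemma vr_cell {N k : ℕ} (hk : k < 2 ^ N) : vr (cell N k) = 1 / 2 ^ N := by
  unfold vr Measure.real
  rw [unitInterval.volume_apply, image_cell hk, Real.volume_Ico]
  have : ((k : ℝ) + 1) / 2 ^ N - k / 2 ^ N = 1 / 2 ^ N := by ring
  rw [this, ENNReal.toReal_ofReal (by positivity)]

/-- the whole cake up to a point is covered by the cells of one level -/
lemma cell_cover (N : ℕ) (x : unitInterval) (hx : x ≠ 1) : ∃ k < 2 ^ N, x ∈ cell N k := by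
  have hp : (0 : ℝ) < 2 ^ N := by positivity
  have hx1 : (x : ℝ) < 1 := lt_of_le_of_ne x.2.2 (fun h => hx (Subtype.ext h))
  have h0 : 0 ≤ (x : ℝ) * 2 ^ N := mul_nonneg x.2.1 hp.le
  refine ⟨⌊(x : ℝ) * 2 ^ N⌋₊, ?_, Nat.floor_le h0, Nat.lt_floor_add_one _⟩
  rw [Nat.floor_lt h0]
  push_cast
  calc (x : ℝ) * 2 ^ N < 1 * 2 ^ N := mul_lt_mul_of_pos_right hx1 hp
    _ = 2 ^ N := one_mul _

/-- an order-convex set of positive measure contains a dyadic cell -/
lemma exists_cell {S : Set unitInterval} (hS : S.OrdConnected) (hm : vr S ≠ 0) :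
    ∃ N k, k < 2 ^ N ∧ cell N k ⊆ S := by
  have hn : ¬ S.Subsingleton := by
    intro h
    apply hm
    unfold vr Measure.real
    rw [h.measure_zero]
    rfl
  rw [Set.not_subsingleton_iff] at hn
  obtain ⟨a, ha, b, hb, hab⟩ := hn
  wlog hlt : a < b generalizing a b
  · exact this b hb a ha hab.symm (lt_of_le_of_ne (not_lt.1 hlt) hab.symm)
  have hlt' : (a : ℝ) < b := hlt
  obtain ⟨N, hN⟩ := pow_unbounded_of_one_lt (2 / ((b : ℝ) - a)) (one_lt_two : (1 : ℝ) < 2)
  have hp : (0 : ℝ) < 2 ^ N := by positivity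
  have hba : 0 < (b : ℝ) - a := sub_pos.2 hlt'
  rw [div_lt_iff₀ hba] at hN
  have ha0 : 0 ≤ (a : ℝ) := a.2.1
  have hb1 : (b : ℝ) ≤ 1 := b.2.2
  have hc0 : 0 ≤ (a : ℝ) * 2 ^ N := mul_nonneg ha0 hp.le
  have hc1 := Nat.ceil_lt_add_one hc0
  have hc2 := Nat.le_ceil ((a : ℝ) * 2 ^ N)
  have hb2 : (b : ℝ) * 2 ^ N ≤ 2 ^ N := by
    calc (b : ℝ) * 2 ^ N ≤ 1 * 2 ^ N := mul_le_mul_of_nonneg_right hb1 hp.le
      _ = 2 ^ N := one_mul _
  have hN' : 2 < (b : ℝ) * 2 ^ N - a * 2 ^ N := by
    have : (2 : ℝ) ^ N * (b - a) = b * 2 ^ N - a * 2 ^ N := by ring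
    linarith
  refine ⟨N, ⌈(a : ℝ) * 2 ^ N⌉₊, ?_, ?_⟩
  · have : ((⌈(a : ℝ) * 2 ^ N⌉₊ : ℕ) : ℝ) < ((2 ^ N : ℕ) : ℝ) := by
      push_cast
      linarith
    exact_mod_cast this
  · rintro x ⟨h1, h2⟩
    refine hS.out ha hb ⟨?_, ?_⟩
    · show (a : ℝ) ≤ x
      exact le_of_mul_le_mul_right (hc2.trans h1) hp
    · show (x : ℝ) ≤ b
      refine le_of_mul_le_mul_right ?_ hp
      linarith

lemma value_nonneg (d : Density) (S : Set unitInterval) : 0 ≤ value d S :=
  integral_nonneg (fun x => d.nonneg x)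

lemma integrable (d : Density) : Integrable d.f := pc_integrable d.pc

/-- The top plateau: some whole cell carries the essential maximum, which is positive. -/
lemma exists_top (d : Density) : ∃ (N k : ℕ) (M : ℝ), k < 2 ^ N ∧ 0 < M ∧
    (∀ x ∈ cell N k, d.f x = M) ∧ ∀ᵐ x : unitInterval, d.f x ≤ M := by
  classical
  obtain ⟨m, I, i1, i2, i3, i4⟩ := d.pc
  have hc : ∀ k, ∃ c, ∀ x ∈ I k, d.f x = c := by
    intro k
    by_cases h : (I k).Nonempty
    · obtain ⟨y, hy⟩ := h
      exact ⟨d.f y, fun x hx => i4 k x hx y hy⟩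
    · exact ⟨0, fun x hx => absurd ⟨x, hx⟩ h⟩
  choose c hc using hc
  set T : Finset (Fin m) := Finset.univ.filter (fun k => vr (I k) ≠ 0) with hT
  -- almost every point lies in a piece of `T`
  have hae : ∀ᵐ x : unitInterval, ∃ k ∈ T, x ∈ I k := by
    have h1 : ∀ k, k ∉ T → ∀ᵐ x : unitInterval, x ∉ I k := by
      intro k hk
      have : vr (I k) = 0 := by
        by_contra h
        exact hk (by simp [hT, h])
      rw [vr, measureReal_eq_zero_iff] at this
      exact measure_eq_zero_iff_ae_notMem.1 this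
    have h2 : ∀ᵐ x : unitInterval, ∀ k, k ∉ T → x ∉ I k := by
      rw [ae_all_iff]
      intro k
      by_cases hk : k ∈ T
      · exact Filter.Eventually.of_forall (fun x h => absurd hk h)
      · filter_upwards [h1 k hk] with x hx _ using hx
    filter_upwards [h2] with x hx
    have hx1 : x ∈ ⋃ k, I k := by rw [i3]; trivial
    obtain ⟨a, ha⟩ := mem_iUnion.1 hx1
    refine ⟨a, ?_, ha⟩
    by_contra h
    exact hx a h ha
  have hTne : T.Nonempty := by
    by_contra h
    rw [Finset.not_nonempty_iff_eq_empty] at h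
    have : ∀ᵐ x : unitInterval, False := by
      filter_upwards [hae] with x hx
      obtain ⟨k, hk, _⟩ := hx
      rw [h] at hk
      simp at hk
    have h0 : ∫ x, d.f x = 0 := by
      apply integral_eq_zero_of_ae
      filter_upwards [this] with x hx using hx.elim
    exact absurd d.pos (by rw [h0]; exact lt_irrefl _)
  obtain ⟨k0, hk0, hmax⟩ := Finset.exists_max_image T c hTne
  have hle : ∀ᵐ x : unitInterval, d.f x ≤ c k0 := by
    filter_upwards [hae] with x hx
    obtain ⟨k, hk, hxk⟩ := hx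
    rw [hc k x hxk]
    exact hmax k hk
  have hpos : 0 < c k0 := by
    by_contra hn
    push Not at hn
    have h0 : ∫ x, d.f x ≤ 0 := by
      apply integral_nonpos_of_ae
      filter_upwards [hle] with x hx using hx.trans hn
    exact absurd d.pos (not_lt.2 h0)
  have hk0' : vr (I k0) ≠ 0 := by
    have := hk0
    rw [hT, Finset.mem_filter] at this
    exact this.2
  obtain ⟨N, k, hk, hsub⟩ := exists_cell (i1 k0) hk0'
  exact ⟨N, k, c k0, hk, hpos, fun x hx => hc k0 x (hsub hx), hle⟩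

/-- level of the top plateau -/
noncomputable def lev (d : Density) : ℕ := (exists_top d).choose

/-- index of the top plateau -/
noncomputable def top (d : Density) : ℕ := (exists_top d).choose_spec.choose

lemma top_spec (d : Density) : ∃ M : ℝ, top d < 2 ^ lev d ∧ 0 < M ∧
    (∀ x ∈ cell (lev d) (top d), d.f x = M) ∧ ∀ᵐ x : unitInterval, d.f x ≤ M :=
  (exists_top d).choose_spec.choose_spec

/-- a level `n` cell inside the top plateau has maximal value among the cells of level `n` -/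
lemma value_le_of_sub (d : Density) {n k k' : ℕ} (hk : k < 2 ^ n) (hk' : k' < 2 ^ n)
    (hsub : cell n k ⊆ cell (lev d) (top d)) :
    value d (cell n k') ≤ value d (cell n k) := by
  obtain ⟨M, -, hM, h1, h2⟩ := top_spec d
  have e1 : value d (cell n k) = M * vr (cell n k) := by
    unfold value
    rw [setIntegral_congr_fun (cell_measurable n k) (fun x hx => h1 x (hsub hx)),
      setIntegral_const, smul_eq_mul, mul_comm]
  have e2 : value d (cell n k') ≤ M * vr (cell n k') := by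
    unfold value
    have : ∫ x in cell n k', d.f x ≤ ∫ x in cell n k', M := by
      apply integral_mono_ae (integrable d).integrableOn (integrable_const M)
      exact ae_restrict_of_ae h2
    rwa [setIntegral_const, smul_eq_mul, mul_comm] at this
  rw [e1]
  rw [vr_cell hk, ← vr_cell hk']
  exact e2

/-- on every level some cell has positive value -/
lemma exists_pos (d : Density) (n : ℕ) : ∃ k < 2 ^ n, 0 < value d (cell n k) := by
  by_contra hcon
  push Not at hcon
  have h0 : ∀ k < 2 ^ n, ∀ᵐ x : unitInterval, x ∈ cell n k → d.f x = 0 := by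
    intro k hk
    have h1 : value d (cell n k) = 0 := le_antisymm (hcon k hk) (value_nonneg d _)
    unfold value at h1
    rw [setIntegral_eq_zero_iff_of_nonneg_ae (Filter.Eventually.of_forall (fun x => d.nonneg x))
      (integrable d).integrableOn] at h1
    exact (ae_restrict_iff' (cell_measurable n k)).1 h1
  have h1 : ∀ᵐ x : unitInterval, ∀ k, k < 2 ^ n → x ∈ cell n k → d.f x = 0 := by
    rw [ae_all_iff]
    intro k
    by_cases hk : k < 2 ^ n
    · filter_upwards [h0 k hk] with x hx _ using hx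
    · exact Filter.Eventually.of_forall (fun x h => absurd h hk)
  have h2 : ∀ᵐ x : unitInterval, x ≠ 1 := by
    have : volume ({1} : Set unitInterval) = 0 := measure_singleton _
    exact measure_eq_zero_iff_ae_notMem.1 this
  have h3 : ∫ x, d.f x = 0 := by
    apply integral_eq_zero_of_ae
    filter_upwards [h1, h2] with x hx hx1
    obtain ⟨k, hk, hxk⟩ := cell_cover n x hx1
    exact hx k hk hxk
  exact absurd d.pos (by rw [h3]; exact lt_irrefl _)

/-- `k` is the number of a favourite cell of level `n` -/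
def Best (d : Density) (n k : ℕ) : Prop :=
  k < 2 ^ n ∧ ∀ k' < 2 ^ n, value d (cell n k') ≤ value d (cell n k)

lemma exists_best (d : Density) (n : ℕ) : ∃ k, Best d n k := by
  obtain ⟨k, hk, hmax⟩ := Finset.exists_max_image (Finset.range (2 ^ n))
    (fun k => value d (cell n k)) ⟨0, by simp⟩
  exact ⟨k, Finset.mem_range.1 hk, fun k' hk' => hmax k' (Finset.mem_range.2 hk')⟩

lemma Best.pos {d : Density} {n k : ℕ} (h : Best d n k) : 0 < value d (cell n k) := by
  obtain ⟨k', hk', hpos⟩ := exists_pos d n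
  exact hpos.trans_le (h.2 k' hk')

lemma best_of_sub (d : Density) {n k : ℕ} (hk : k < 2 ^ n)
    (hsub : cell n k ⊆ cell (lev d) (top d)) : Best d n k :=
  ⟨hk, fun _ hk' => value_le_of_sub d hk hk' hsub⟩

end Pool.Agent.D0H58.CK
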