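import Mathlib
import Pool.Agent.D0H58.CK.Cells

/-!
# Disjoint favourite cells and the mechanism
-/

set_option autoImplicit false

open MeasureTheory Set

namespace Pool.Agent.D0H58.CK

open Pool.Agent.V11109.Cake

lemma cell_anc {n N c : ℕ} (h : N ≤ n) : cell n c ⊆ cell N (c / 2 ^ (n - N)) := by
  have h1 : c / 2 ^ (n - N) * 2 ^ (n - N) + c % 2 ^ (n - N) = c := by
    rw [mul_comm]; exact Nat.div_add_mod c (2 ^ (n - N))
  have h2 := cell_sub' (k := c / 2 ^ (n - N)) h (Nat.mod_lt c (by positivity : 0 < 2 ^ (n - N)))
  rwa [h1] at h2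

/-- If the level of every agent's cell is finer (by `K`) than the top plateaus of all other agents,
favourite cells of these levels can be chosen pairwise disjoint. -/
theorem exists_disjoint {n : ℕ} (p : Fin n → Density) (K : ℕ) (hK : n + 1 ≤ 2 ^ K) (lv : Fin n → ℕ)
    (hlv : ∀ i j, j ≠ i → lev (p j) + K ≤ lv i) :
    ∃ c : Fin n → ℕ, (∀ i, Best (p i) (lv i) (c i)) ∧
      ∀ i j, i ≠ j → Disjoint (cell (lv i) (c i)) (cell (lv j) (c j)) := by
  classical
  rcases Nat.eq_zero_or_pos n with rfl | hn
  · exact ⟨fun i => i.elim0, fun i => i.elim0, fun i => i.elim0⟩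
  have : Nonempty (Fin n) := ⟨⟨0, hn⟩⟩
  obtain ⟨a, -, ha⟩ := Finset.exists_max_image (Finset.univ : Finset (Fin n))
    (fun j => lev (p j)) Finset.univ_nonempty
  set N : ℕ := (Finset.univ.filter (fun j => j ≠ a)).sup (fun j => lev (p j) + K) with hN
  have hN1 : ∀ j, j ≠ a → lev (p j) + K ≤ N := fun j hj =>
    Finset.le_sup (f := fun j => lev (p j) + K) (Finset.mem_filter.2 ⟨Finset.mem_univ j, hj⟩)
  have hNa : N ≤ lv a := by
    rw [hN]
    apply Finset.sup_le
    intro j hj
    exact hlv a j (Finset.mem_filter.1 hj).2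
  have hNj : ∀ j, N ≤ lv j := by
    intro j
    by_cases hj : j = a
    · rw [hj]; exact hNa
    · rw [hN]
      apply Finset.sup_le
      intro j' _
      have h1 := ha j' (Finset.mem_univ _)
      have h2 := hlv j a (Ne.symm hj)
      omega
  obtain ⟨ca, hca⟩ := exists_best (p a) (lv a)
  set e : ℕ := ca / 2 ^ (lv a - N) with he
  have hsubA : cell (lv a) ca ⊆ cell N e := cell_anc hNa
  set T : Fin n → Finset ℕ := fun j =>
    ((Finset.range (2 ^ K)).image (fun i => top (p j) * 2 ^ (N - lev (p j)) + i)).erase e with hT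
  have hTc : ∀ j, n ≤ (T j).card := by
    intro j
    have h1 : ((Finset.range (2 ^ K)).image
        (fun i => top (p j) * 2 ^ (N - lev (p j)) + i)).card = 2 ^ K := by
      rw [Finset.card_image_of_injective _ (fun x y h => by simpa using h), Finset.card_range]
    have h2 := Finset.pred_card_le_card_erase
      (s := (Finset.range (2 ^ K)).image (fun i => top (p j) * 2 ^ (N - lev (p j)) + i)) (a := e)
    rw [h1] at h2
    show n ≤ (((Finset.range (2 ^ K)).image
      (fun i => top (p j) * 2 ^ (N - lev (p j)) + i)).erase e).card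
    omega
  obtain ⟨f, hf1, hf2⟩ := (Finset.all_card_le_biUnion_card_iff_exists_injective T).1 (by
    intro s
    rcases s.eq_empty_or_nonempty with rfl | ⟨j, hj⟩
    · simp
    · calc s.card ≤ n := by simpa using Finset.card_le_univ s
        _ ≤ (T j).card := hTc j
        _ ≤ (s.biUnion T).card := Finset.card_le_card (Finset.subset_biUnion_of_mem T hj))
  have hf3 : ∀ j, f j ≠ e := fun j => Finset.ne_of_mem_erase (hf2 j)
  have hf4 : ∀ j, j ≠ a → f j < 2 ^ N ∧ cell N (f j) ⊆ cell (lev (p j)) (top (p j)) := by
    intro j hj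
    obtain ⟨i, hi, hfi⟩ := Finset.mem_image.1 (Finset.mem_of_mem_erase (hf2 j))
    rw [Finset.mem_range] at hi
    have h1 := hN1 j hj
    have h2 : lev (p j) ≤ N := by omega
    have h3 : i < 2 ^ (N - lev (p j)) :=
      hi.trans_le (Nat.pow_le_pow_right (by norm_num) (by omega))
    obtain ⟨_, ht, -⟩ := top_spec (p j)
    rw [← hfi]
    exact ⟨idx_lt h2 ht h3, cell_sub' h2 h3⟩
  have hsub : ∀ j, cell (lv j) (f j * 2 ^ (lv j - N)) ⊆ cell N (f j) := by
    intro j
    have := cell_sub' (k := f j) (hNj j) (by positivity : 0 < 2 ^ (lv j - N))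
    simpa using this
  have hlt : ∀ j, j ≠ a → f j * 2 ^ (lv j - N) < 2 ^ lv j := by
    intro j hj
    have := idx_lt (hNj j) (hf4 j hj).1 (by positivity : 0 < 2 ^ (lv j - N))
    simpa using this
  refine ⟨fun j => if j = a then ca else f j * 2 ^ (lv j - N), ?_, ?_⟩
  · intro i
    by_cases hi : i = a
    · subst hi
      simpa using hca
    · simp only [hi, if_false]
      exact best_of_sub _ (hlt i hi) ((hsub i).trans (hf4 i hi).2)
  · intro i j hij
    by_cases hi : i = a
    · have hj : j ≠ a := fun h => hij (hi.trans h.symm)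
      subst hi
      simp only [if_true, hj, if_false]
      exact (cell_disjoint (Ne.symm (hf3 j))).mono hsubA (hsub j)
    · by_cases hj : j = a
      · subst hj
        simp only [if_true, hi, if_false]
        exact (cell_disjoint (hf3 i)).mono (hsub i) hsubA
      · simp only [hi, hj, if_false]
        exact (cell_disjoint (fun h => hij (hf1 h))).mono (hsub i) (hsub j)

/-- a natural number `m` with `1 / 2 ^ m ≤ x` -/
noncomputable def tiny (x : ℝ) : ℕ := ⌈1 / x⌉₊

lemma tiny_spec {x : ℝ} (hx : 0 < x) : 1 / 2 ^ tiny x ≤ x := by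
  have h1 : 1 / x ≤ (tiny x : ℝ) := Nat.le_ceil _
  have h2 : (tiny x : ℝ) < 2 ^ tiny x := by exact_mod_cast Nat.lt_two_pow_self
  have h3 : 1 / x ≤ 2 ^ tiny x := h1.trans h2.le
  rw [div_le_iff₀ hx] at h3
  rw [div_le_iff₀ (by positivity)]
  linarith

section Mech

variable {n : ℕ} (γ : Fin n → (Fin n → Density) → ℝ)

/-- the level of the cell of agent `i`: determined by the reports of the others -/
noncomputable def lvl (p : Fin n → Density) (i : Fin n) : ℕ :=
  (Finset.univ.erase i).sup (fun j => lev (p j)) + n + tiny (γ i p)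

lemma lvl_ge (p : Fin n → Density) (i j : Fin n) (h : j ≠ i) : lev (p j) + n ≤ lvl γ p i := by
  have : lev (p j) ≤ (Finset.univ.erase i).sup (fun j => lev (p j)) :=
    Finset.le_sup (f := fun j => lev (p j)) (Finset.mem_erase.2 ⟨h, Finset.mem_univ j⟩)
  unfold lvl
  omega

lemma lvl_update (hγ : ∀ i p g, γ i (Function.update p i g) = γ i p) (p : Fin n → Density)
    (i : Fin n) (g : Density) : lvl γ (Function.update p i g) i = lvl γ p i := by
  unfold lvl
  rw [hγ]
  congr 2
  apply Finset.sup_congr rfl
  intro j hj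
  rw [Function.update_of_ne (Finset.ne_of_mem_erase hj)]

/-- the numbers of the chosen cells -/
noncomputable def idx (p : Fin n → Density) : Fin n → ℕ :=
  (exists_disjoint p n (by
    have := Nat.lt_two_pow_self (n := n)
    omega) (lvl γ p) (fun i j h => lvl_ge γ p i j h)).choose

lemma idx_best (p : Fin n → Density) (i : Fin n) : Best (p i) (lvl γ p i) (idx γ p i) :=
  (exists_disjoint p n (by
    have := Nat.lt_two_pow_self (n := n)
    omega) (lvl γ p) (fun i j h => lvl_ge γ p i j h)).choose_spec.1 i

lemma idx_disjoint (p : Fin n → Density) (i j : Fin n) (h : i ≠ j) :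
    Disjoint (cell (lvl γ p i) (idx γ p i)) (cell (lvl γ p j) (idx γ p j)) :=
  (exists_disjoint p n (by
    have := Nat.lt_two_pow_self (n := n)
    omega) (lvl γ p) (fun i j h => lvl_ge γ p i j h)).choose_spec.2 i j h

/-- the cell of agent `i` -/
noncomputable def pick (p : Fin n → Density) (i : Fin n) : Set unitInterval :=
  cell (lvl γ p i) (idx γ p i)

lemma pick_truthful (hγ : ∀ i p g, γ i (Function.update p i g) = γ i p) (i : Fin n)
    (p : Fin n → Density) (g : Density) :
    value (p i) (pick γ (Function.update p i g) i) ≤ value (p i) (pick γ p i) := by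
  unfold pick
  rw [lvl_update γ hγ]
  apply (idx_best γ p i).2
  have := (idx_best γ (Function.update p i g) i).1
  rwa [lvl_update γ hγ] at this

lemma pick_pos (p : Fin n → Density) (i : Fin n) : 0 < value (p i) (pick γ p i) :=
  (idx_best γ p i).pos

lemma vr_pick_le (hpos : ∀ i p, 0 < γ i p) (p : Fin n → Density) (i : Fin n) :
    vr (pick γ p i) ≤ γ i p := by
  unfold pick
  rw [vr_cell (idx_best γ p i).1]
  refine le_trans ?_ (tiny_spec (hpos i p))
  apply one_div_le_one_div_of_le (by positivity)
  apply pow_le_pow_right₀ (by norm_num)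
  unfold lvl
  omega

end Mech

lemma finUnion_of_pcset {S : Set unitInterval} (h : PCSet S) : FinUnionIntervals S := by
  classical
  obtain ⟨m, I, i1, i2, i3, i4⟩ := h
  refine ⟨m, fun k => if (I k ∩ S).Nonempty then I k else ∅, ?_, ?_⟩
  · intro k
    by_cases h : (I k ∩ S).Nonempty
    · simp only [h, if_true]; exact i1 k
    · simp only [h, if_false]; exact ordConnected_empty
  · ext x
    simp only [mem_iUnion]
    constructor
    · intro hx
      have hx1 : x ∈ ⋃ k, I k := by rw [i3]; trivial
      obtain ⟨k, hk⟩ := mem_iUnion.1 hx1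
      refine ⟨k, ?_⟩
      rw [if_pos ⟨x, hk, hx⟩]
      exact hk
    · rintro ⟨k, hk⟩
      by_cases h : (I k ∩ S).Nonempty
      · rw [if_pos h] at hk
        obtain ⟨y, hy1, hy2⟩ := h
        have := i4 k x hk y hy1
        by_contra hxS
        simp [hxS, hy2] at this
      · rw [if_neg h] at hk
        exact hk.elim

lemma PCSet.compl {S : Set unitInterval} (h : PCSet S) : PCSet Sᶜ := by
  have := pc_comb (fun a _ => 1 - a) h h
  unfold PCSet
  convert this using 2 with x
  by_cases h1 : x ∈ S <;> simp [h1]

lemma pcset_iUnion {n : ℕ} {A : Fin n → Set unitInterval} (h : ∀ i, PCSet (A i)) :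
    PCSet (⋃ i, A i) := by
  induction n with
  | zero => simpa using pcset_empty
  | succ n ih =>
    have : (⋃ k, A k) = A 0 ∪ ⋃ k : Fin n, A k.succ := by
      ext x
      simp [Fin.exists_fin_succ]
    rw [this]
    exact (h 0).union (ih (fun k => h k.succ))

lemma finUnion_of_ordConnected {S : Set unitInterval} (h : S.OrdConnected) :
    FinUnionIntervals S :=
  ⟨1, fun _ => S, fun _ => h, (iUnion_const S).symm⟩

lemma vr_iUnion_le {n : ℕ} (A : Fin n → Set unitInterval) : vr (⋃ i, A i) ≤ ∑ i, vr (A i) := by
  induction n with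
  | zero => simp [vr]
  | succ n ih =>
    have : (⋃ k, A k) = A 0 ∪ ⋃ k : Fin n, A k.succ := by
      ext x
      simp [Fin.exists_fin_succ]
    rw [this, Fin.sum_univ_succ]
    exact (measureReal_union_le _ _).trans (add_le_add le_rfl (ih _))

/-- the mechanism for `n + 1` agents: the last agent receives what the favourite cells leave -/
noncomputable def mech {n : ℕ} (γ : Fin n → (Fin n → Density) → ℝ) : Mechanism (n + 1) where
  alloc p := Fin.lastCases (⋃ j, pick γ (fun j => p j.castSucc) j)ᶜ
    (fun i => pick γ (fun j => p j.castSucc) i)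
  intervals p i := by
    refine Fin.lastCases ?_ (fun i => ?_) i
    · simp only [Fin.lastCases_last]
      apply finUnion_of_pcset
      apply PCSet.compl
      apply pcset_iUnion
      intro j
      exact pcset_of_ordConnected (cell_ordConnected _ _)
    · simp only [Fin.lastCases_castSucc]
      exact finUnion_of_ordConnected (cell_ordConnected _ _)
  disjoint p i j hij := by
    revert hij
    refine Fin.lastCases ?_ (fun i => ?_) i <;> refine Fin.lastCases ?_ (fun j => ?_) j
    · intro h; exact absurd rfl h
    · intro _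
      simp only [Fin.lastCases_last, Fin.lastCases_castSucc]
      exact disjoint_compl_left_iff_subset.2 (subset_iUnion _ j)
    · intro _
      simp only [Fin.lastCases_last, Fin.lastCases_castSucc]
      exact disjoint_compl_right_iff_subset.2 (subset_iUnion _ i)
    · intro h
      simp only [Fin.lastCases_castSucc]
      exact idx_disjoint γ _ i j (fun h' => h (by rw [h']))
  whole p := by
    rw [Set.eq_univ_iff_forall]
    intro x
    rw [mem_iUnion]
    by_cases hx : x ∈ ⋃ j, pick γ (fun j => p j.castSucc) j
    · obtain ⟨j, hj⟩ := mem_iUnion.1 hx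
      exact ⟨j.castSucc, by simpa only [Fin.lastCases_castSucc] using hj⟩
    · refine ⟨Fin.last n, ?_⟩
      simp only [Fin.lastCases_last]
      exact hx

lemma mech_castSucc {n : ℕ} (γ : Fin n → (Fin n → Density) → ℝ) (p : Fin (n + 1) → Density)
    (i : Fin n) : (mech γ).alloc p i.castSucc = pick γ (fun j => p j.castSucc) i := by
  simp [mech]

lemma mech_last {n : ℕ} (γ : Fin n → (Fin n → Density) → ℝ) (p : Fin (n + 1) → Density) :
    (mech γ).alloc p (Fin.last n) = (⋃ j, pick γ (fun j => p j.castSucc) j)ᶜ := by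
  simp [mech]

lemma mech_truthful {n : ℕ} (γ : Fin n → (Fin n → Density) → ℝ)
    (hγ : ∀ i p g, γ i (Function.update p i g) = γ i p) : (mech γ).Truthful := by
  intro i p g
  refine Fin.lastCases ?_ (fun i => ?_) i
  · rw [mech_last, mech_last]
    have : (fun j : Fin n => Function.update p (Fin.last n) g j.castSucc) =
        fun j => p j.castSucc := by
      funext j
      rw [Function.update_of_ne (Fin.castSucc_lt_last j).ne]
    rw [this]
  · rw [mech_castSucc, mech_castSucc]
    have : (fun j : Fin n => Function.update p i.castSucc g j.castSucc) =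
        Function.update (fun j => p j.castSucc) i g := by
      funext j
      by_cases h : j = i
      · subst h; simp
      · rw [Function.update_of_ne h, Function.update_of_ne (by
          intro h'; exact h (Fin.castSucc_injective n h'))]
    rw [this]
    exact pick_truthful γ hγ i (fun j => p j.castSucc) g

/-- If the rest of the cake is worthless for an agent, the support of its density is small. -/
lemma supp_le {n : ℕ} (γ : Fin n → (Fin n → Density) → ℝ) (hpos : ∀ i p, 0 < γ i p)
    (p : Fin (n + 1) → Density)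
    (h : value (p (Fin.last n)) ((mech γ).alloc p (Fin.last n)) = 0) :
    vr {x | 0 < (p (Fin.last n)).f x} ≤ ∑ i, γ i (fun j => p j.castSucc) := by
  rw [mech_last] at h
  set q : Fin n → Density := fun j => p j.castSucc with hq
  set d := p (Fin.last n) with hd
  set D : Set unitInterval := ⋃ j, pick γ q j with hD
  have hDm : MeasurableSet D := MeasurableSet.iUnion (fun j => cell_measurable _ _)
  have h1 : ∀ᵐ x : unitInterval, x ∈ Dᶜ → d.f x = 0 := by
    unfold value at h
    rw [setIntegral_eq_zero_iff_of_nonneg_ae (Filter.Eventually.of_forall (fun x => d.nonneg x))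
      (integrable d).integrableOn] at h
    exact (ae_restrict_iff' hDm.compl).1 h
  have h2 : volume {x | 0 < d.f x} ≤ volume D := by
    apply measure_mono_ae
    filter_upwards [h1] with x hx hpx
    by_contra hxD
    have := hx hxD
    have hpx' : 0 < d.f x := hpx
    rw [this] at hpx'
    exact lt_irrefl _ hpx'
  have h3 : vr {x | 0 < d.f x} ≤ vr D :=
    ENNReal.toReal_mono (measure_ne_top _ _) h2
  calc vr {x | 0 < d.f x} ≤ vr D := h3
    _ ≤ ∑ i, vr (pick γ q i) := vr_iUnion_le _
    _ ≤ ∑ i, γ i q := Finset.sum_le_sum (fun i _ => vr_pick_le γ hpos q i)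

end Pool.Agent.D0H58.CK
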